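import Pool.Agent.H502R3.PQ3

namespace Pool.Agent.Results.MP_42ae20_co.EulerianSpectrum

open Pool.Agent.H502R3.PQ

/-- For `n ≥ 2`, an Eulerian P-quasigroup with `n` elements exists if and only if `n` is odd and
`n ≠ 5`. -/
theorem result (n : ℕ) (hn : 2 ≤ n) :
    (∃ (V : Type) (_ : Fintype V) (op : V → V → V),
      Fintype.card V = n ∧ IsPQuasigroup op ∧ IsEulerian op) ↔ Odd n ∧ n ≠ 5 :=
  main n hn

end Pool.Agent.Results.MP_42ae20_co.EulerianSpectrum
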